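import Pool.Agent.TH499.TF.Minor
import Pool.Agent.TH676.Blk.Pet

set_option autoImplicit false
set_option linter.unusedSectionVars false

/-! # Cographic matroids, blocks and flows -/

namespace Pool.Agent.TH676.Blk

open Finset
open Pool.Agent.TH499.TF (dlt mem_dlt NZ PM CC Joins Pr dv jn)

/-- The incidence vector of the vertex `v` over GF(2). -/
def star {V E : Type} [DecidableEq V] (src dst : E → V) (v : V) : E → ZMod 2 :=
  fun e => (if src e = v then 1 else 0) + (if dst e = v then 1 else 0)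

/-- The linear relations between the vectors `vec e` are exactly the elements of the cut space. -/
def RepCo {V E : Type} [DecidableEq V] [Fintype E] (src dst : E → V) {n : ℕ}
    (vec : E → Fin n → ZMod 2) : Prop :=
  ∀ x : E → ZMod 2, ∑ e, x e • vec e = 0 ↔
    x ∈ Submodule.span (ZMod 2) (Set.range (star src dst))

variable {V E : Type} [Fintype V] [DecidableEq V] [Fintype E] [DecidableEq E]

theorem sum_star (src dst : E → V) (Y : Finset V) (e : E) :
    (∑ v ∈ Y, star src dst v) e = if e ∈ dlt src dst Y then 1 else 0 := by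
  rw [Finset.sum_apply]
  have h1 : ∑ v ∈ Y, star src dst v e
      = (if src e ∈ Y then 1 else 0) + (if dst e ∈ Y then 1 else 0) := by
    unfold star
    rw [Finset.sum_add_distrib]
    simp
  rw [h1]
  simp only [mem_dlt]
  by_cases p : src e ∈ Y <;> by_cases q : dst e ∈ Y <;> simp [p, q]
  decide

theorem sum_star_mem (src dst : E → V) (Y : Finset V) :
    (∑ v ∈ Y, star src dst v) ∈ Submodule.span (ZMod 2) (Set.range (star src dst)) :=
  Submodule.sum_mem _ fun v _ => Submodule.subset_span ⟨v, rfl⟩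

/-- the elements of the cut space are the cuts -/
theorem mem_cutspace (src dst : E → V) (x : E → ZMod 2)
    (hx : x ∈ Submodule.span (ZMod 2) (Set.range (star src dst))) :
    ∃ Y : Finset V, ∀ e, x e = if e ∈ dlt src dst Y then 1 else 0 := by
  obtain ⟨c, hc⟩ := (Submodule.mem_span_range_iff_exists_fun (ZMod 2)).mp hx
  refine ⟨univ.filter (fun v => c v = 1), fun e => ?_⟩
  have h1 : (∑ v, c v • star src dst v) = ∑ v ∈ univ.filter (fun v => c v = 1), star src dst v := by
    rw [sum_filter]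
    refine sum_congr rfl fun v _ => ?_
    rcases z2_cases (c v) with h | h
    · rw [h]; simp
    · rw [h]; simp
  rw [← sum_star, ← hc, h1]

/-- there are no bridges if no vector is zero -/
theorem RepCo.br {src dst : E → V} {n : ℕ} {vec : E → Fin n → ZMod 2} (hv : RepCo src dst vec)
    (h0 : ∀ e, vec e ≠ 0) (Y : Finset V) : (dlt src dst Y).card ≠ 1 := by
  intro hc
  obtain ⟨a, ha⟩ := Finset.card_eq_one.mp hc
  have h5 := (hv _).mpr (sum_star_mem src dst Y)
  apply h0 a
  rw [Finset.sum_eq_single a] at h5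
  · rw [sum_star, ha, if_pos (mem_singleton_self a), one_smul] at h5
    exact h5
  · intro b _ hb
    rw [sum_star, ha, if_neg (fun h => hb (mem_singleton.mp h)), zero_smul]
  · intro h; exact absurd (Finset.mem_univ a) h

theorem dv_fst (src dst : E → V) (f : E → K) (v : V) :
    (dv src dst f v).1 = ∑ e, (f e).1 * star src dst v e := by
  unfold dv
  rw [Prod.fst_sum]
  refine sum_congr rfl fun e _ => ?_
  unfold jn star
  by_cases h1 : src e = v <;> by_cases h2 : dst e = v <;> simp [h1, h2, mul_add]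

theorem dv_snd (src dst : E → V) (f : E → K) (v : V) :
    (dv src dst f v).2 = ∑ e, (f e).2 * star src dst v e := by
  unfold dv
  rw [Prod.snd_sum]
  refine sum_congr rfl fun e _ => ?_
  unfold jn star
  by_cases h1 : src e = v <;> by_cases h2 : dst e = v <;> simp [h1, h2, mul_add]

/-- a flow gives a linear map which is nonzero on the vectors -/
theorem RepCo.map {src dst : E → V} {n : ℕ} {vec : E → Fin n → ZMod 2} (hv : RepCo src dst vec)
    (hf : NZ src dst) :
    ∃ L : (Fin n → ZMod 2) →ₗ[ZMod 2] (Fin 2 → ZMod 2), ∀ e, L (vec e) ≠ 0 := by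
  classical
  obtain ⟨g, g3, g1⟩ := hf
  let ψ : (E → ZMod 2) →ₗ[ZMod 2] (Fin n → ZMod 2) := Fintype.linearCombination (ZMod 2) vec
  have hψ : ∀ x, ψ x = ∑ e, x e • vec e := fun x => Fintype.linearCombination_apply _ _ _
  have hfac : ∀ a : E → ZMod 2, (∀ v, ∑ e, a e * star src dst v e = 0) →
      ∃ G : (Fin n → ZMod 2) →ₗ[ZMod 2] ZMod 2, ∀ e, G (vec e) = a e := by
    intro a ha
    let f : (E → ZMod 2) →ₗ[ZMod 2] ZMod 2 := ∑ e, a e • LinearMap.proj e
    have hf : ∀ x, f x = ∑ e, a e * x e := by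
      intro x
      simp [f, LinearMap.sum_apply]
    have h1 : f ∈ (LinearMap.ker ψ).dualAnnihilator := by
      rw [Submodule.mem_dualAnnihilator]
      intro w hw
      rw [LinearMap.mem_ker, hψ] at hw
      have hx2 := (hv w).mp hw
      have hle : Submodule.span (ZMod 2) (Set.range (star src dst)) ≤ LinearMap.ker f := by
        refine Submodule.span_le.mpr ?_
        rintro _ ⟨v, rfl⟩
        simp only [SetLike.mem_coe, LinearMap.mem_ker]
        rw [hf]
        exact ha v
      exact hle hx2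
    rw [← LinearMap.range_dualMap_eq_dualAnnihilator_ker] at h1
    obtain ⟨G, hG⟩ := h1
    refine ⟨G, fun e => ?_⟩
    have h2 : ψ (Pi.single e 1) = vec e := by
      rw [hψ, Finset.sum_eq_single e]
      · simp
      · intro b _ hb
        rw [Pi.single_eq_of_ne hb, zero_smul]
      · intro h; exact absurd (Finset.mem_univ e) h
    have h3 : G (ψ (Pi.single e 1)) = f (Pi.single e 1) := by rw [← hG]; rfl
    rw [h2, hf, Finset.sum_eq_single e] at h3
    · rw [h3, Pi.single_eq_same, mul_one]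
    · intro b _ hb
      rw [Pi.single_eq_of_ne hb, mul_zero]
    · intro h; exact absurd (Finset.mem_univ e) h
  obtain ⟨G1, hG1⟩ := hfac (fun e => (g e).1) (fun v => by
    rw [← dv_fst src dst g v, g1 v]; rfl)
  obtain ⟨G2, hG2⟩ := hfac (fun e => (g e).2) (fun v => by
    rw [← dv_snd src dst g v, g1 v]; rfl)
  refine ⟨LinearMap.pi ![G1, G2], fun e he => ?_⟩
  apply g3 e
  have h1 := congrFun he 0
  have h2 := congrFun he 1
  simp only [LinearMap.pi_apply, Matrix.cons_val_zero, Matrix.cons_val_one, Pi.zero_apply] at h1 h2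
  rw [hG1] at h1
  rw [hG2] at h2
  exact Prod.ext h1 h2

/-- the vertices of the Petersen graph as pairs -/
def fl : Fin 10 → Pr :=
  ![⟨{0, 1}, by decide⟩, ⟨{2, 3}, by decide⟩, ⟨{0, 4}, by decide⟩, ⟨{1, 2}, by decide⟩,
    ⟨{3, 4}, by decide⟩, ⟨{2, 4}, by decide⟩, ⟨{1, 4}, by decide⟩, ⟨{1, 3}, by decide⟩,
    ⟨{0, 3}, by decide⟩, ⟨{0, 2}, by decide⟩]

theorem fl_inj : ∀ i j, fl i = fl j → i = j := by decide

theorem fl_adj : ∀ k, Disjoint (fl (pa k)).1 (fl (pb k)).1 := by decide

/-- **A Petersen minor of the graph gives a minor of the cographic matroid.** -/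
theorem RepCo.minor {src dst : E → V} {n : ℕ} {vec : E → Fin n → ZMod 2} (hv : RepCo src dst vec)
    (hP : PM src dst) :
    ∃ (D : Finset E) (ed : Fin 15 → E), ∀ x : Fin 15 → ZMod 2,
      ∑ k, x k • vec (ed k) ∈ Submodule.span (ZMod 2) (vec '' (D : Set E)) ↔ x ∈ PC := by
  classical
  obtain ⟨S, c1, c2, c3⟩ := hP
  let B : Fin 10 → Finset V := fun i => S (fl i)
  have b1 : ∀ i, CC src dst (B i) := fun i => c1 _
  have b2 : ∀ i j, i ≠ j → Disjoint (B i) (B j) := fun i j h => c2 _ _ (fun h2 => h (fl_inj i j h2))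
  have b3 : ∀ k, ∃ e, (src e ∈ B (pa k) ∧ dst e ∈ B (pb k)) ∨
      (src e ∈ B (pb k) ∧ dst e ∈ B (pa k)) := by
    intro k
    obtain ⟨e, x, y, hx, hy, hj⟩ := c3 _ _ (fl_adj k)
    refine ⟨e, ?_⟩
    rcases hj with ⟨h1, h2⟩ | ⟨h1, h2⟩
    · exact Or.inl ⟨h1 ▸ hx, h2 ▸ hy⟩
    · exact Or.inr ⟨h1 ▸ hy, h2 ▸ hx⟩
  choose ed hed using b3
  have buniq : ∀ {v i j}, v ∈ B i → v ∈ B j → i = j := by
    intro v i j hi hj
    by_contra h
    exact disjoint_left.mp (b2 i j h) hi hj
  have hne : ∀ i, (B i).Nonempty := by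
    intro i
    have : ∃ k, pa k = i ∨ pb k = i := by revert i; decide
    obtain ⟨k, hk⟩ := this
    rcases hed k with ⟨h1, h2⟩ | ⟨h1, h2⟩ <;> rcases hk with hk | hk
    · exact ⟨_, hk ▸ h1⟩
    · exact ⟨_, hk ▸ h2⟩
    · exact ⟨_, hk ▸ h2⟩
    · exact ⟨_, hk ▸ h1⟩
  have edinj : Function.Injective ed := by
    intro k l hkl
    apply pab_inj
    have h1 := hed k
    have h2 := hed l
    rw [← hkl] at h2
    rcases h1 with ⟨h1, h1'⟩ | ⟨h1, h1'⟩ <;> rcases h2 with ⟨h2, h2'⟩ | ⟨h2, h2'⟩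
    · exact Or.inl ⟨buniq h1 h2, buniq h1' h2'⟩
    · exact Or.inr ⟨buniq h1 h2, buniq h1' h2'⟩
    · exact Or.inr ⟨buniq h1' h2', buniq h1 h2⟩
    · exact Or.inl ⟨buniq h1' h2', buniq h1 h2⟩
  -- the edges joining two of the sets are not inside a set
  have ednot : ∀ k i, ¬ (src (ed k) ∈ B i ∧ dst (ed k) ∈ B i) := by
    rintro k i ⟨h1, h2⟩
    apply pab_ne k
    rcases hed k with ⟨h3, h4⟩ | ⟨h3, h4⟩
    · exact (buniq h3 h1).trans (buniq h2 h4)
    · exact (buniq h4 h2).trans (buniq h1 h3)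
  let D : Finset E := univ.filter (fun e => (∀ k, e ≠ ed k) ∧
    ∀ i, ¬ (src e ∈ B i ∧ dst e ∈ B i))
  have hD : ∀ e, e ∈ D ↔ (∀ k, e ≠ ed k) ∧ ∀ i, ¬ (src e ∈ B i ∧ dst e ∈ B i) := by
    intro e; simp [D]
  -- splitting sums over the edges
  have hsplit : ∀ (y : E → ZMod 2), (∀ e, (∃ i, src e ∈ B i ∧ dst e ∈ B i) → y e = 0) →
      ∑ e, y e • vec e = ∑ k, y (ed k) • vec (ed k) + ∑ e ∈ D, y e • vec e := by
    intro y hy
    have h1 : (univ : Finset E) = univ.image ed ∪ (D ∪ univ.filter (fun e =>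
        ∃ i, src e ∈ B i ∧ dst e ∈ B i)) := by
      ext e
      simp only [mem_univ, mem_union, mem_image, true_and, mem_filter, hD, true_iff]
      by_cases h : ∃ k, ed k = e
      · exact Or.inl h
      · push Not at h
        by_cases h2 : ∃ i, src e ∈ B i ∧ dst e ∈ B i
        · exact Or.inr (Or.inr h2)
        · push Not at h2
          exact Or.inr (Or.inl ⟨fun k => (h k).symm, fun i h3 => h2 i h3.1 h3.2⟩)
    rw [h1, sum_union, sum_union, sum_image]
    · have h3 : ∑ e ∈ univ.filter (fun e => ∃ i, src e ∈ B i ∧ dst e ∈ B i), y e • vec e = 0 := by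
        refine sum_eq_zero fun e he => ?_
        rw [hy e (mem_filter.mp he).2, zero_smul]
      rw [h3, add_zero]
    · intro k _ l _ h; exact edinj h
    · rw [disjoint_left]
      intro e he he2
      obtain ⟨i, hi⟩ := (mem_filter.mp he2).2
      exact ((hD e).mp he).2 i hi
    · rw [disjoint_left]
      intro e he he2
      obtain ⟨k, _, rfl⟩ := mem_image.mp he
      rcases mem_union.mp he2 with h | h
      · exact ((hD _).mp h).1 k rfl
      · obtain ⟨i, hi⟩ := (mem_filter.mp h).2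
        exact ednot k i hi
  have hcut : ∀ (J : Finset (Fin 10)) (Y : Finset V), (∀ i, (i ∈ J → B i ⊆ Y) ∧
      (i ∉ J → Disjoint (B i) Y)) → ∀ k, (ed k ∈ dlt src dst Y ↔ ¬ (pa k ∈ J ↔ pb k ∈ J)) := by
    intro J Y hJ k
    rw [mem_dlt]
    have h1 : ∀ {v i}, v ∈ B i → (v ∈ Y ↔ i ∈ J) := by
      intro v i hv
      constructor
      · intro h
        by_contra h2
        exact disjoint_left.mp ((hJ i).2 h2) hv h
      · intro h
        exact (hJ i).1 h hv
    rcases hed k with ⟨h2, h3⟩ | ⟨h2, h3⟩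
    · rw [h1 h2, h1 h3]
    · rw [h1 h2, h1 h3]
      exact not_congr ⟨fun h => h.symm, fun h => h.symm⟩
  refine ⟨D, ed, fun x => ⟨fun hx => ?_, fun hx => ?_⟩⟩
  · obtain ⟨c0, hc0⟩ := (Submodule.mem_span_image_finset_iff_exists_fun (ZMod 2)).mp hx
    let c : E → ZMod 2 := fun e => if h : e ∈ D then c0 ⟨e, h⟩ else 0
    have hc : ∑ e ∈ D, c e • vec e = ∑ k, x k • vec (ed k) := by
      rw [← hc0, ← Finset.sum_coe_sort D (fun e => c e • vec e)]
      refine sum_congr rfl fun i _ => ?_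
      simp only [c]
      rw [dif_pos i.2]
    let y : E → ZMod 2 := fun e => if h : ∃ k, ed k = e then x h.choose else
      if e ∈ D then c e else 0
    have y1 : ∀ k, y (ed k) = x k := by
      intro k
      have h : ∃ l, ed l = ed k := ⟨k, rfl⟩
      simp only [y]
      rw [dif_pos h]
      exact congrArg x (edinj h.choose_spec)
    have y2 : ∀ e ∈ D, y e = c e := by
      intro e he
      have h : ¬ ∃ k, ed k = e := by
        rintro ⟨k, rfl⟩
        exact ((hD _).mp he).1 k rfl
      simp only [y]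
      rw [dif_neg h, if_pos he]
    have y3 : ∀ e, (∃ i, src e ∈ B i ∧ dst e ∈ B i) → y e = 0 := by
      rintro e ⟨i, hi⟩
      have h : ¬ ∃ k, ed k = e := by
        rintro ⟨k, rfl⟩
        exact ednot k i hi
      simp only [y]
      rw [dif_neg h, if_neg (fun h2 => ((hD e).mp h2).2 i hi)]
    have hsum : ∑ e, y e • vec e = 0 := by
      have e1 : ∑ e ∈ D, y e • vec e = ∑ e ∈ D, c e • vec e :=
        sum_congr rfl (fun e he => by rw [y2 e he])
      have e2 : ∑ k, y (ed k) • vec (ed k) = ∑ k, x k • vec (ed k) :=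
        sum_congr rfl (fun k _ => by rw [y1 k])
      rw [hsplit y y3, e1, e2, hc]
      funext i
      rw [Pi.add_apply]
      exact CharTwo.add_self_eq_zero _
    obtain ⟨Y, hY⟩ := mem_cutspace src dst y ((hv y).mp hsum)
    rw [mem_PC]
    refine ⟨univ.filter (fun i => B i ⊆ Y), fun k => ?_⟩
    have h4 := hcut (univ.filter (fun i => B i ⊆ Y)) Y (fun i => ⟨fun h => (mem_filter.mp h).2,
      fun h => ?_⟩) k
    · rw [← y1 k, hY (ed k)]
      by_cases h5 : ed k ∈ dlt src dst Y
      · rw [if_pos h5, if_neg (h4.mp h5)]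
      · rw [if_neg h5, if_pos (by_contra fun h6 => h5 (h4.mpr h6))]
    · rw [disjoint_left]
      intro v hvi hvY
      apply h
      rw [mem_filter]
      refine ⟨mem_univ _, ?_⟩
      by_contra hns
      obtain ⟨e, a, b, ha, hb, hbA, hj⟩ := b1 i ((B i).filter (fun w => w ∈ Y))
        (filter_subset _ _) ⟨v, mem_filter.mpr ⟨hvi, hvY⟩⟩ (fun heq => hns (fun w hw => by
          rw [← heq] at hw
          exact (mem_filter.mp hw).2))
      have ha' := mem_filter.mp ha
      have hb' : b ∉ Y := fun h6 => hbA (mem_filter.mpr ⟨hb, h6⟩)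
      have h7 : e ∈ dlt src dst Y := by
        rw [mem_dlt]
        rcases hj with ⟨h8, h9⟩ | ⟨h8, h9⟩
        · rw [h8, h9]; exact fun h10 => hb' (h10.mp ha'.2)
        · rw [h8, h9]; exact fun h10 => hb' (h10.mpr ha'.2)
      have h11 := hY e
      rw [if_pos h7, y3 e (by
        rcases hj with ⟨h8, h9⟩ | ⟨h8, h9⟩
        · exact ⟨i, h8 ▸ ha'.1, h9 ▸ hb⟩
        · exact ⟨i, h8 ▸ hb, h9 ▸ ha'.1⟩)] at h11
      exact absurd h11 (by decide)
  · obtain ⟨J, hJ⟩ := (mem_PC x).mp hx
    let Y : Finset V := J.biUnion B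
    have hYJ : ∀ i, (i ∈ J → B i ⊆ Y) ∧ (i ∉ J → Disjoint (B i) Y) := by
      intro i
      constructor
      · intro hi v hv
        exact mem_biUnion.mpr ⟨i, hi, hv⟩
      · intro hi
        rw [disjoint_left]
        intro v hv hvY
        obtain ⟨j, hj, hvj⟩ := mem_biUnion.mp hvY
        exact hi (buniq hvj hv ▸ hj)
    have h1 := (hv _).mpr (sum_star_mem src dst Y)
    rw [hsplit _ (by
      rintro e ⟨i, hi1, hi2⟩
      rw [sum_star, if_neg]
      rw [mem_dlt, not_not]
      by_cases hi : i ∈ J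
      · exact iff_of_true ((hYJ i).1 hi hi1) ((hYJ i).1 hi hi2)
      · exact iff_of_false (fun h => disjoint_left.mp ((hYJ i).2 hi) hi1 h)
          (fun h => disjoint_left.mp ((hYJ i).2 hi) hi2 h))] at h1
    have h2 : ∀ k, (∑ v ∈ Y, star src dst v) (ed k) = x k := by
      intro k
      rw [sum_star, hJ k]
      have h4 := hcut J Y hYJ k
      by_cases h5 : ed k ∈ dlt src dst Y
      · rw [if_pos h5, if_neg (h4.mp h5)]
      · rw [if_neg h5, if_pos (by_contra fun h6 => h5 (h4.mpr h6))]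
    have e2 : ∑ k, (∑ v ∈ Y, star src dst v) (ed k) • vec (ed k) = ∑ k, x k • vec (ed k) :=
      sum_congr rfl (fun k _ => by rw [h2 k])
    rw [e2] at h1
    rw [eq_neg_of_add_eq_zero_left h1]
    refine Submodule.neg_mem _ (Submodule.sum_mem _ fun e he => Submodule.smul_mem _ _
      (Submodule.subset_span ⟨e, he, rfl⟩))

end Pool.Agent.TH676.Blk
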